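import Pool.Agent.Y421.KZ.Core
import Pool.Agent.Y192.KC.ZDefs

/-!
# The logarithmic Gauss map of a hypersurface in a torus is dominant, over any field
-/

set_option autoImplicit false

namespace Pool.Agent.Y421.KZ

open Finset MvPolynomial

/-- An element which is transcendental over the field of the `u i`. -/
theorem exists_trans {k K : Type} [Field k] [Field K] [Algebra k K] {n : ℕ} (x u : Fin n → K)
    (hx : AlgebraicIndependent k x)
    (hgen : IntermediateField.adjoin k (Set.range x) = ⊤) (hu : ¬ AlgebraicIndependent k u) :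
    ∃ j, Transcendental (IntermediateField.adjoin k (Set.range u)) (x j) := by
  by_contra hcon
  push Not at hcon
  apply hu
  have h1 : ∀ z : K, IsAlgebraic (Algebra.adjoin k (Set.range u)) z := by
    intro z
    have hz : z ∈ IntermediateField.adjoin k (Set.range x) := by rw [hgen]; trivial
    induction hz using IntermediateField.adjoin_induction with
    | mem z hz =>
      obtain ⟨j, rfl⟩ := hz
      have h2 : IsAlgebraic (IntermediateField.adjoin k (Set.range u)) (x j) := by
        by_contra h3
        exact hcon j h3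
      exact IntermediateField.isAlgebraic_adjoin_iff.1 h2
    | algebraMap a =>
      exact isAlgebraic_algebraMap (algebraMap k (Algebra.adjoin k (Set.range u)) a)
    | add a b _ _ ha hb => exact ha.add hb
    | inv a _ ha => exact ha.inv
    | mul a b _ _ ha hb => exact ha.mul hb
  have h2 : Algebra.IsAlgebraic (Algebra.adjoin k (Set.range u)) K := ⟨h1⟩
  exact (Algebra.IsAlgebraic.isTranscendenceBasis_of_le_trdeg_of_finite k u
    (by simpa using hx.cardinalMk_le_trdeg)).1

theorem coeff_euler {k : Type} [Field k] {b : ℕ} (g : MvPolynomial (Fin b) k) (i : Fin b)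
    (c : Fin b →₀ ℕ) : coeff c (X i * pderiv i g) = (c i : k) * coeff c g := by
  classical
  induction g using MvPolynomial.induction_on' with
  | monomial m r =>
    rw [X_mul_pderiv_monomial, coeff_smul, coeff_monomial]
    split_ifs with h
    · rw [h, nsmul_eq_mul]
    · simp
  | add p q hp hq => rw [map_add, mul_add, coeff_add, hp, hq, coeff_add, mul_add]

theorem der_aeval {k K Ω : Type} [Field k] [Field K] [Algebra k K] [Field Ω] [CharZero Ω]
    (σ : K →+* Ω) {b : ℕ} (x : Fin b → K) (hx : ∀ i, x i ≠ 0) (D : Derivation ℚ Ω Ω)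
    (hD : ∀ a : k, D (σ (algebraMap k K a)) = 0) (g : MvPolynomial (Fin b) k) :
    D (σ (aeval x g)) = ∑ i, σ (aeval x (X i * pderiv i g)) * (D (σ (x i)) / σ (x i)) := by
  classical
  have hσ : ∀ i, σ (x i) ≠ 0 := fun i => (map_ne_zero σ).2 (hx i)
  induction g using MvPolynomial.induction_on with
  | C a =>
    rw [aeval_C, hD]
    symm
    refine sum_eq_zero fun i _ => ?_
    rw [pderiv_C, mul_zero, map_zero, map_zero, zero_mul]
  | add p q hp hq =>
    rw [map_add, map_add, map_add, hp, hq, ← sum_add_distrib]
    refine sum_congr rfl fun i _ => ?_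
    rw [map_add, mul_add, map_add, map_add, add_mul]
  | mul_X p n hp =>
    rw [map_mul, aeval_X, map_mul, D.leibniz, hp]
    simp only [smul_eq_mul]
    have h1 : ∀ i, σ (aeval x (X i * pderiv i (p * X n))) * (D (σ (x i)) / σ (x i)) =
        (if i = n then σ (aeval x p) * D (σ (x n)) else 0) +
          σ (x n) * (σ (aeval x (X i * pderiv i p)) * (D (σ (x i)) / σ (x i))) := by
      intro i
      rw [Derivation.leibniz, pderiv_X]
      simp only [smul_eq_mul, mul_add, map_add, add_mul, map_mul, aeval_X]
      split_ifs with h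
      · subst h
        have := hσ i
        simp only [Pi.single_eq_same, map_one]
        field_simp
      · rw [Pi.single_eq_of_ne (Ne.symm h)]
        simp only [map_zero, mul_zero, zero_mul, zero_add]
        ring
    rw [sum_congr rfl fun i _ => h1 i, sum_add_distrib, sum_ite_eq' univ n, if_pos (mem_univ n),
      ← mul_sum]

/-- Relation between logarithmic derivatives implies homogeneity. -/
theorem gaussK_aux {k K : Type} [Field k] [CharZero k] [Field K] [Algebra k K] {b : ℕ}
    (x : Fin b → K) (g : MvPolynomial (Fin b) k) (hx : AlgebraicIndependent k x)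
    (hgen : IntermediateField.adjoin k (Set.range x) = ⊤) (hg : g ≠ 0)
    (hdep : ¬ AlgebraicIndependent k (fun i => aeval x (X i * pderiv i g) / aeval x g)) :
    ∃ l : Fin b → ℤ, l ≠ 0 ∧ ∃ a : ℤ, ∀ c ∈ g.support, ∑ i, l i * c i = a := by
  classical
  have hK0 : CharZero K := charZero_of_injective_algebraMap (algebraMap k K).injective
  have hΩ0 : CharZero (AlgebraicClosure K) :=
    charZero_of_injective_algebraMap (algebraMap K (AlgebraicClosure K)).injective
  obtain ⟨u, hu⟩ : ∃ u : Fin b → K, u = fun i => aeval x (X i * pderiv i g) / aeval x g :=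
    ⟨_, rfl⟩
  rw [← hu] at hdep
  obtain ⟨k0, hk⟩ := exists_trans x u hx hgen hdep
  have hG0 : aeval x g ≠ 0 := fun h0 => hg ((injective_iff_map_eq_zero _).1 hx _ h0)
  have hx0 : ∀ i, x i ≠ 0 := fun i => hx.ne_zero i
  obtain ⟨l, hl0, hl⟩ := core (algebraMap K (AlgebraicClosure K))
    (IntermediateField.adjoin k (Set.range u)).toSubfield
    (Fin.cons (aeval x g) x : Fin (b + 1) → K)
    (fun j => by
      refine Fin.cases ?_ (fun i => ?_) j
      · exact hG0
      · exact hx0 i) k0.succ (by
      rw [Fin.cons_succ]
      exact hk)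
  have hrel := hl (Fin.cons 1 fun i => - u i) (fun j => by
      refine Fin.cases ?_ (fun i => ?_) j
      · exact (IntermediateField.adjoin k (Set.range u)).one_mem
      · exact (IntermediateField.adjoin k (Set.range u)).neg_mem
          (IntermediateField.subset_adjoin _ _ ⟨i, rfl⟩)) (fun D hD => by
      have h1 := der_aeval (algebraMap K (AlgebraicClosure K)) x hx0 D
        (fun a => hD _ ((IntermediateField.adjoin k (Set.range u)).algebraMap_mem a)) g
      rw [Fin.sum_univ_succ]
      simp only [Fin.cons_zero, Fin.cons_succ, map_one, one_mul]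
      rw [h1, sum_div, ← sum_add_distrib]
      refine sum_eq_zero fun i _ => ?_
      rw [hu]
      simp only [map_neg, map_div₀]
      ring)
  rw [Fin.sum_univ_succ] at hrel
  simp only [Fin.cons_zero, Fin.cons_succ, mul_one] at hrel
  have hrel2 : aeval x ((l 0 : MvPolynomial (Fin b) k) * g -
      ∑ i, (l (Fin.succ i) : MvPolynomial (Fin b) k) * (X i * pderiv i g)) = 0 := by
    rw [map_sub, map_mul, map_intCast, map_sum]
    have h1 : (l 0 : K) = ∑ i, (l (Fin.succ i) : K) * u i := by
      rw [← sub_eq_zero, ← hrel, sub_eq_add_neg, ← sum_neg_distrib]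
      congr 1
      exact sum_congr rfl fun i _ => by ring
    rw [h1, sum_mul, sub_eq_zero]
    refine sum_congr rfl fun i _ => ?_
    rw [map_mul, map_intCast, hu]
    field_simp
  have hrel3 := (injective_iff_map_eq_zero _).1 hx _ hrel2
  refine ⟨fun i => l (Fin.succ i), fun h0 => hl0 (congrFun h0 k0), l 0, fun c hc => ?_⟩
  have h1 := congrArg (coeff c) hrel3
  have hI : ∀ (z : ℤ) (p : MvPolynomial (Fin b) k), coeff c ((z : MvPolynomial (Fin b) k) * p) =
      (z : k) * coeff c p := fun z p => by
    rw [← map_intCast (C : k →+* MvPolynomial (Fin b) k), coeff_C_mul]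
  rw [coeff_sub, hI, coeff_sum, coeff_zero] at h1
  have h2 : ∀ i, coeff c ((l (Fin.succ i) : MvPolynomial (Fin b) k) * (X i * pderiv i g)) =
      ((l (Fin.succ i) * (c i : ℤ) : ℤ) : k) * coeff c g := fun i => by
    rw [hI, coeff_euler]
    push_cast
    ring
  rw [sum_congr rfl fun i _ => h2 i, ← sum_mul, ← sub_mul] at h1
  have h3 := (mul_eq_zero.1 h1).resolve_right (mem_support_iff.1 hc)
  rw [sub_eq_zero] at h3
  have h4 : (l 0 : k) = ((∑ i, l (Fin.succ i) * (c i : ℤ) : ℤ) : k) := by
    rw [h3, Int.cast_sum]
  exact (Int.cast_injective h4).symm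


/-- The logarithmic Gauss map of a hypersurface in a torus is dominant, over any field of
characteristic zero. -/
theorem t_gaussK : Pool.Agent.Y192.KC.St_gaussK := by
  intro k K _ _ _ _ b X g hX hgen hg hsupp
  by_contra hdep
  obtain ⟨l, hl, ha⟩ := gaussK_aux X g hX hgen hg hdep
  exact hsupp l hl ha

end Pool.Agent.Y421.KZ
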