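import Pool.Agent.Y421.KZ.Core
import Pool.Agent.Y192.KC.ZDefs

/-!
# The logarithmic Gauss map of a subvariety of a torus with finite stabilizer is generically finite
-/

set_option autoImplicit false

namespace Pool.Agent.Y421.KZ

open Finset Pool.Agent.Y192.OG Pool.Agent.Y192.KC Pool.Agent.W602.GT

/-- derivations vanish on algebraic elements -/
theorem der_zero_of_alg {K Ω : Type} [Field K] [CharZero K] [Field Ω] (σ : K →+* Ω) (Δ : K → Ω)
    (hadd : ∀ a b, Δ (a + b) = Δ a + Δ b) (hmul : ∀ a b, Δ (a * b) = σ a * Δ b + σ b * Δ a)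
    (F : Type) [Field F] [Algebra F K] (hF : ∀ a : F, Δ (algebraMap F K a) = 0) (z : K)
    (hz : IsAlgebraic F z) : Δ z = 0 := by
  have hF0 : CharZero F := by
    refine ⟨fun m n h => ?_⟩
    have := congrArg (algebraMap F K) h
    rw [map_natCast, map_natCast] at this
    exact_mod_cast this
  have h0 : Δ 0 = 0 := by
    have := hF 0
    rwa [map_zero] at this
  have hpow : ∀ n : ℕ, Δ (z ^ n) = σ ((n : K) * z ^ (n - 1)) * Δ z := by
    intro n
    induction n with
    | zero =>
      have h1 : Δ 1 = 0 := by
        have := hF 1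
        rwa [map_one] at this
      rw [pow_zero, h1]
      simp
    | succ n ih =>
      rw [pow_succ, hmul, ih]
      rcases Nat.eq_zero_or_pos n with rfl | hn
      · simp
      · obtain ⟨q, rfl⟩ := Nat.exists_eq_succ_of_ne_zero hn.ne'
        simp only [Nat.succ_eq_add_one, Nat.add_sub_cancel]
        rw [← mul_assoc, ← map_mul, ← add_mul, ← map_add]
        congr 2
        push_cast
        ring
  have hP : ∀ P : Polynomial F, Δ (Polynomial.aeval z P) =
      σ (Polynomial.aeval z (Polynomial.derivative P)) * Δ z := by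
    intro P
    induction P using Polynomial.induction_on' with
    | add p q hp hq => rw [map_add, hadd, hp, hq, Polynomial.derivative_add, map_add, map_add,
        add_mul]
    | monomial n a =>
      rw [Polynomial.aeval_monomial, hmul, hF, mul_zero, add_zero, hpow,
        Polynomial.derivative_monomial, Polynomial.aeval_monomial, ← mul_assoc, ← map_mul]
      congr 2
      rw [map_mul, map_natCast]
      ring
  have h1 := hP (minpoly F z)
  rw [minpoly.aeval, h0] at h1
  have h2 : Polynomial.aeval z (Polynomial.derivative (minpoly F z)) ≠ 0 :=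
    (minpoly.irreducible hz.isIntegral).separable.aeval_derivative_ne_zero (minpoly.aeval F z)
  exact (mul_eq_zero.1 h1.symm).resolve_left ((map_ne_zero σ).2 h2)

/-- eigenvectors with distinct integral eigenvalues are independent -/
theorem eig {K : Type} [Field K] [CharZero K] [Algebra ℂ K] (D : Derivation ℂ K K) (S : Finset ℤ) :
    ∀ y : ℤ → K, (∀ k ∈ S, D (y k) = (k : K) * y k) → ∑ k ∈ S, y k = 0 → ∀ k ∈ S, y k = 0 := by
  classical
  induction S using Finset.induction_on with
  | empty => intro y _ _ k hk; simp at hk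
  | insert a S ha ih =>
    intro y hy hsum
    rw [sum_insert ha] at hsum
    have h1 : (a : K) * y a + ∑ k ∈ S, (k : K) * y k = 0 := by
      have h2 := congrArg D hsum
      rw [map_add, map_sum, map_zero, hy a (mem_insert_self _ _),
        sum_congr rfl fun k hk => hy k (mem_insert_of_mem hk)] at h2
      exact h2
    have h3 : ∑ k ∈ S, ((k - a : ℤ) : K) * y k = 0 := by
      have h4 : ∑ k ∈ S, ((k - a : ℤ) : K) * y k = ∑ k ∈ S, (k : K) * y k - a * ∑ k ∈ S, y k := by
        rw [mul_sum, ← sum_sub_distrib]
        refine sum_congr rfl fun k _ => ?_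
        push_cast
        ring
      rw [h4]
      linear_combination h1 - (a : K) * hsum
    have h5 := ih (fun k => ((k - a : ℤ) : K) * y k) (fun k hk => by
      have h6 : D (((k - a : ℤ) : K) * y k) = ((k - a : ℤ) : K) * D (y k) := by
        rw [← zsmul_eq_mul, map_zsmul, zsmul_eq_mul]
      rw [h6, hy k (mem_insert_of_mem hk)]
      ring) h3
    have h6 : ∀ k ∈ S, y k = 0 := by
      intro k hk
      refine (mul_eq_zero.1 (h5 k hk)).resolve_left ?_
      have hka : k - a ≠ 0 := sub_ne_zero.2 (fun h => ha (h ▸ hk))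
      exact_mod_cast hka
    intro k hk
    rcases mem_insert.1 hk with rfl | hk
    · rw [sum_eq_zero h6, add_zero] at hsum
      exact hsum
    · exact h6 k hk

section ev

variable {n : ℕ} {K : Type} [Field K] [Algebra ℂ K]

theorem lau_eq (g : Lau n) : g = ∑ c ∈ g.coeff.support, AddMonoidAlgebra.single c (g.coeff c) := by
  have h := Finsupp.sum_single g.coeff
  rw [Finsupp.sum] at h
  ext c
  rw [AddMonoidAlgebra.coeff_sum]
  conv_lhs => rw [← h]
  simp

theorem ep_eq (x : Fin n → Kˣ) (g : Lau n) :
    ep x g = ∑ c ∈ g.coeff.support, algebraMap ℂ K (g.coeff c) * (xm x c : K) := by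
  conv_lhs => rw [lau_eq g]
  rw [map_sum]
  refine sum_congr rfl fun c _ => ?_
  rw [ep_single, Algebra.smul_def]

theorem ep_wpart (x : Fin n → Kˣ) (l : Fin n → ℤ) (k : ℤ) (g : Lau n) :
    ep x (wpart l k g) = ∑ c ∈ g.coeff.support.filter (fun m => ∑ i, l i * m i = k),
      algebraMap ℂ K (g.coeff c) * (xm x c : K) := by
  classical
  rw [ep_eq]
  have h1 : (wpart l k g).coeff = g.coeff.filter fun m => ∑ i, l i * m i = k := rfl
  rw [h1, Finsupp.support_filter]
  refine sum_congr rfl fun c hc => ?_
  rw [Finsupp.filter_apply_pos (fun m : Fin n → ℤ => ∑ i, l i * m i = k) _ (mem_filter.1 hc).2]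

theorem der_xm (D : Derivation ℂ K K) (x : Fin n → Kˣ) (l : Fin n → ℤ)
    (hD : ∀ i, D (x i : K) = (l i : K) * x i) (c : Fin n → ℤ) :
    D (xm x c : K) = ((∑ i, l i * c i : ℤ) : K) * xm x c := by
  classical
  have hpow : ∀ i, ∀ m : ℤ, D ((x i : K) ^ m) = ((l i * m : ℤ) : K) * (x i : K) ^ m := by
    intro i m
    rw [D.leibniz_zpow, hD, zsmul_eq_mul, smul_eq_mul]
    have h1 : (x i : K) ^ (m - 1) * (x i : K) = (x i : K) ^ m := by
      rw [← zpow_add_one₀ (x i).ne_zero, sub_add_cancel]
    push_cast
    linear_combination (m : K) * (l i : K) * h1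
  have hprod : ∀ s : Finset (Fin n), D (∏ i ∈ s, (x i : K) ^ c i) =
      ((∑ i ∈ s, l i * c i : ℤ) : K) * ∏ i ∈ s, (x i : K) ^ c i := by
    intro s
    induction s using Finset.induction_on with
    | empty => simp
    | insert a s ha ih =>
      rw [prod_insert ha, sum_insert ha, D.leibniz, ih, hpow]
      simp only [smul_eq_mul]
      push_cast
      ring
  have h1 : (xm x c : K) = ∏ i, (x i : K) ^ c i := by
    unfold xm
    rw [Units.coe_prod]
    exact prod_congr rfl fun i _ => Units.val_zpow_eq_zpow_val _ _
  rw [h1]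
  exact hprod univ

/-- A derivation with `D x_i = l_i x_i` implies that the ideal of `x` is homogeneous. -/
theorem hom_of_der (D : Derivation ℂ K K) (x : Fin n → Kˣ) (l : Fin n → ℤ)
    (hD : ∀ i, D (x i : K) = (l i : K) * x i) (g : Lau n) (hg : ep x g = 0) (k : ℤ) :
    ep x (wpart l k g) = 0 := by
  classical
  have hK0 : CharZero K := charZero_of_injective_algebraMap (algebraMap ℂ K).injective
  set S : Finset ℤ := insert k (g.coeff.support.image fun m => ∑ i, l i * m i) with hS
  have h1 : ∑ k ∈ S, ep x (wpart l k g) = 0 := by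
    rw [← hg, ep_eq]
    simp only [ep_wpart]
    exact sum_fiberwise_of_maps_to
      (fun m hm => mem_insert_of_mem (mem_image_of_mem _ hm)) _
  refine eig D S (fun k => ep x (wpart l k g)) (fun k' _ => ?_) h1 k (mem_insert_self _ _)
  simp only [ep_wpart]
  rw [map_sum, mul_sum]
  refine sum_congr rfl fun c hc => ?_
  rw [D.leibniz, D.map_algebraMap, smul_zero, add_zero, smul_eq_mul, der_xm D x l hD,
    (mem_filter.1 hc).2]
  ring

end ev

theorem exists_basis {K : Type} [Field K] [Algebra ℂ K] {N d : ℕ} (x : Fin N → Kˣ)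
    (halg : ∀ z : K, IsAlgebraic (IntermediateField.adjoin ℂ (Set.range fun i => (x i : K))) z)
    (hd : Algebra.trdeg ℂ K = d) :
    ∃ s : Fin d → Fin N, IsTranscendenceBasis ℂ (fun i => (x (s i) : K)) := by
  have h1 : Algebra.IsAlgebraic (Algebra.adjoin ℂ (Set.range fun i => (x i : K))) K :=
    ⟨fun z => IntermediateField.isAlgebraic_adjoin_iff.1 (halg z)⟩
  obtain ⟨t, ht, hb⟩ := exists_isTranscendenceBasis_subset (R := ℂ)
    (Set.range fun i => (x i : K))
  have hcard : Cardinal.mk t = d := by rw [hb.cardinalMk_eq_trdeg, hd]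
  obtain ⟨e⟩ : Nonempty (Fin d ≃ t) := by
    rw [← Cardinal.eq, hcard, Cardinal.mk_fin]
  choose s hs using fun i : Fin d => ht (e i).2
  refine ⟨s, ?_⟩
  have h2 : (fun i => (x (s i) : K)) = (fun a : t => (a : K)) ∘ e := funext hs
  rw [h2]
  exact hb.comp_equiv e

/-- a derivation of a larger field in terms of the derivations of a field -/
theorem der_eq {K Ω : Type} [Field K] [CharZero K] [Algebra ℂ K] [Field Ω] [CharZero Ω]
    (σ : K →+* Ω) {N d : ℕ} (x : Fin N → Kˣ) (s : Fin d → Fin N)
    (hs : IsTranscendenceBasis ℂ (fun i => (x (s i) : K))) (θ : Fin d → Derivation ℂ K K)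
    (hθ : ∀ i j, θ i (x (s j) : K) = if i = j then (x (s j) : K) else 0)
    (D : Derivation ℚ Ω Ω) (hD : ∀ a : ℂ, D (σ (algebraMap ℂ K a)) = 0) (z : K) :
    D (σ z) = ∑ i, (D (σ (x (s i) : K)) / σ (x (s i) : K)) * σ (θ i z) := by
  classical
  have hx0 : ∀ j, σ (x j : K) ≠ 0 := fun j => (map_ne_zero σ).2 (x j).ne_zero
  obtain ⟨v, hv⟩ : ∃ v : Fin d → Ω, ∀ i, D (σ (x (s i) : K)) / σ (x (s i) : K) = v i :=
    ⟨_, fun i => rfl⟩
  simp only [hv]
  obtain ⟨Δ, hΔ⟩ : ∃ Δ : K → Ω, ∀ z, Δ z = D (σ z) - ∑ i, v i * σ (θ i z) := ⟨_, fun z => rfl⟩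
  rw [← sub_eq_zero, ← hΔ]
  have hadd : ∀ a b, Δ (a + b) = Δ a + Δ b := by
    intro a b
    simp only [hΔ, map_add, mul_add, sum_add_distrib]
    ring
  have hmul : ∀ a b, Δ (a * b) = σ a * Δ b + σ b * Δ a := by
    intro a b
    simp only [hΔ, map_mul, Derivation.leibniz, smul_eq_mul, map_add, mul_add, sum_add_distrib,
      mul_sub, mul_sum]
    have h1 : ∀ i, v i * (σ a * σ (θ i b)) = σ a * (v i * σ (θ i b)) := fun i => by ring
    have h2 : ∀ i, v i * (σ b * σ (θ i a)) = σ b * (v i * σ (θ i a)) := fun i => by ring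
    simp only [h1, h2]
    ring
  have hC : ∀ a : ℂ, Δ (algebraMap ℂ K a) = 0 := by
    intro a
    rw [hΔ, hD]
    simp
  have hF : ∀ w ∈ IntermediateField.adjoin ℂ (Set.range fun i => (x (s i) : K)), Δ w = 0 := by
    intro w hw
    induction hw using IntermediateField.adjoin_induction with
    | mem w hw =>
      obtain ⟨j, rfl⟩ := hw
      simp only [hΔ, hθ]
      have h1 : ∀ i, v i * σ (if i = j then (x (s j) : K) else 0) =
          if i = j then v j * σ (x (s j) : K) else 0 := by
        intro i
        split_ifs with h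
        · rw [h]
        · rw [map_zero, mul_zero]
      rw [sum_congr rfl fun i _ => h1 i, sum_ite_eq' univ j, if_pos (mem_univ j), ← hv,
        div_mul_cancel₀ _ (hx0 _), sub_self]
    | algebraMap a => exact hC a
    | add a b _ _ ha hb => rw [hadd, ha, hb, add_zero]
    | inv a _ ha =>
      rcases eq_or_ne a 0 with rfl | ha0
      · rw [inv_zero]; exact ha
      · have h1 := hmul a a⁻¹
        have h2 := hC 1
        rw [map_one] at h2
        rw [mul_inv_cancel₀ ha0, h2, ha, mul_zero, add_zero] at h1
        exact (mul_eq_zero.1 h1.symm).resolve_left ((map_ne_zero σ).2 ha0)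
    | mul a b _ _ ha hb => rw [hmul, ha, hb, mul_zero, mul_zero, add_zero]
  have hz : IsAlgebraic (IntermediateField.adjoin ℂ (Set.range fun i => (x (s i) : K))) z :=
    IntermediateField.isAlgebraic_adjoin_iff.2 (hs.isAlgebraic.isAlgebraic z)
  exact der_zero_of_alg σ Δ hadd hmul
    (IntermediateField.adjoin ℂ (Set.range fun i => (x (s i) : K))) (fun a => hF a a.2) z hz

theorem sum_c {K R : Type} [Field K] [CommRing R] {N d : ℕ} (σ : K →+* R) (w : Fin N → R)
    (s : Fin d → Fin N) (M : Fin d → K) (j : Fin N) :
    ∑ m, σ ((if m = j then 1 else 0) - ∑ i, if m = s i then M i else 0) * w m =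
      w j - ∑ i, σ (M i) * w (s i) := by
  classical
  simp only [map_sub, sub_mul, sum_sub_distrib, map_sum, sum_mul]
  congr 1
  · rw [sum_eq_single j]
    · rw [if_pos rfl, map_one, one_mul]
    · intro m _ hm
      rw [if_neg hm, map_zero, zero_mul]
    · intro h
      exact absurd (mem_univ j) h
  · rw [sum_comm]
    refine sum_congr rfl fun i _ => ?_
    rw [sum_eq_single (s i)]
    · rw [if_pos rfl]
    · intro m _ hm
      rw [if_neg hm, map_zero, zero_mul]
    · intro h
      exact absurd (mem_univ _) h

/-- The logarithmic Gauss map of a subvariety of a torus with finite stabilizer is generically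
finite. -/
theorem t_gaussV : St_gaussV := by
  classical
  intro K _ _ N d x halg hd hstab
  have hK0 : CharZero K := charZero_of_injective_algebraMap (algebraMap ℂ K).injective
  have hΩ0 : CharZero (AlgebraicClosure K) :=
    charZero_of_injective_algebraMap (algebraMap K (AlgebraicClosure K)).injective
  obtain ⟨s, hs⟩ := exists_basis x halg hd
  have hθ : ∀ i : Fin d, ∃ D : Derivation ℂ K K,
      ∀ j, D (x (s j) : K) = if i = j then (x (s j) : K) else 0 := fun i => exists_der _ hs _
  choose θ hθ using hθ
  refine ⟨s, hs.1, θ, hθ, ?_⟩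
  obtain ⟨E, hE⟩ : ∃ E : IntermediateField ℂ K, E = IntermediateField.adjoin ℂ
      (Set.range fun s' : Fin d → Fin N =>
        (Matrix.of fun i j : Fin d => θ i (x (s' j) : K) / (x (s' j) : K)).det) := ⟨_, rfl⟩
  rw [← hE]
  -- the entries of the matrix are minors
  have hM : ∀ i j, θ i (x j : K) / (x j : K) ∈ E := by
    intro i j
    rw [hE]
    refine IntermediateField.subset_adjoin _ _ ⟨Function.update s i j, ?_⟩
    have h1 : (Matrix.of fun i' j' : Fin d => θ i' (x (Function.update s i j j') : K) /
        (x (Function.update s i j j') : K)) = (1 : Matrix (Fin d) (Fin d) K).updateCol i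
          (fun i' => θ i' (x j : K) / (x j : K)) := by
      ext i' j'
      rw [Matrix.of_apply, Matrix.updateCol_apply]
      split_ifs with h
      · subst h
        rw [Function.update_self]
      · rw [Function.update_of_ne h, hθ, Matrix.one_apply]
        split_ifs
        · exact div_self (x _).ne_zero
        · exact zero_div _
    change (Matrix.of fun i' j' : Fin d => θ i' (x (Function.update s i j j') : K) /
        (x (Function.update s i j j') : K)).det = _
    rw [h1, ← Matrix.cramer_apply, Matrix.cramer_one]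
    rfl
  by_contra hcon
  push Not at hcon
  obtain ⟨z, hz⟩ := hcon
  obtain ⟨k, hk⟩ : ∃ k, Transcendental E (x k : K) := by
    by_contra hcon
    push Not at hcon
    apply hz
    have h1 : ∀ w ∈ IntermediateField.adjoin ℂ (Set.range fun i => (x i : K)),
        w ∈ algebraicClosure E K := by
      intro w hw
      induction hw using IntermediateField.adjoin_induction with
      | mem w hw =>
        obtain ⟨j, rfl⟩ := hw
        rw [mem_algebraicClosure_iff]
        by_contra h3
        exact hcon j h3
      | algebraMap a =>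
        exact (algebraicClosure E K).algebraMap_mem (algebraMap ℂ E a)
      | add a b _ _ ha hb => exact add_mem ha hb
      | inv a _ ha => exact inv_mem ha
      | mul a b _ _ ha hb => exact mul_mem ha hb
    let φ : IntermediateField.adjoin ℂ (Set.range fun i => (x i : K)) →+* algebraicClosure E K :=
      { toFun := fun z => ⟨z, h1 z z.2⟩
        map_one' := rfl
        map_mul' := fun a b => rfl
        map_zero' := rfl
        map_add' := fun a b => rfl }
    have h2 : IsAlgebraic (algebraicClosure E K) z :=
      (halg z).ringHom_of_comp_eq φ (RingHom.id K) φ.injective (RingHom.ext fun w => rfl)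
    exact h2.restrictScalars E
  obtain ⟨l, hlk, hl⟩ := core (algebraMap K (AlgebraicClosure K)) E.toSubfield
    (fun j => (x j : K)) (fun j => (x j).ne_zero) k hk
  have hrel : ∀ j, (l j : K) = ∑ i, (l (s i) : K) * (θ i (x j : K) / (x j : K)) := by
    intro j
    have h1 := hl (fun m => (if m = j then 1 else 0) -
      ∑ i, if m = s i then θ i (x j : K) / (x j : K) else 0) (fun m => by
        refine E.sub_mem ?_ (E.sum_mem fun i _ => ?_)
        · split_ifs
          · exact E.one_mem
          · exact E.zero_mem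
        · split_ifs
          · exact hM i j
          · exact E.zero_mem) (fun D hD => by
        rw [sum_c (algebraMap K (AlgebraicClosure K)) (fun m =>
          D (algebraMap K (AlgebraicClosure K) (x m : K)) /
            algebraMap K (AlgebraicClosure K) (x m : K)) s _ j]
        have hx0 : algebraMap K (AlgebraicClosure K) (x j : K) ≠ 0 :=
          (map_ne_zero _).2 (x j).ne_zero
        rw [der_eq (algebraMap K (AlgebraicClosure K)) x s hs θ hθ D
          (fun a => hD _ (E.algebraMap_mem a)) (x j : K), sum_div, ← sum_sub_distrib]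
        refine sum_eq_zero fun i _ => ?_
        rw [map_div₀]
        ring)
    have h2 := sum_c (RingHom.id K) (fun m => (l m : K)) s
      (fun i => θ i (x j : K) / (x j : K)) j
    simp only [RingHom.id_apply] at h2
    have h3 : ∑ m, (l m : K) * ((if m = j then 1 else 0) -
        ∑ i, if m = s i then θ i (x j : K) / (x j : K) else 0) =
        ∑ m, ((if m = j then 1 else 0) -
          ∑ i, if m = s i then θ i (x j : K) / (x j : K) else 0) * (l m : K) :=
      sum_congr rfl fun m _ => mul_comm _ _
    rw [h3, h2, sub_eq_zero] at h1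
    rw [h1]
    exact sum_congr rfl fun i _ => mul_comm _ _
  obtain ⟨D, hD⟩ : ∃ D : Derivation ℂ K K, ∀ z, D z = ∑ i, (l (s i) : K) * θ i z := by
    have h1 : ∀ S : Finset (Fin d), ∃ D : Derivation ℂ K K,
        ∀ z, D z = ∑ i ∈ S, (l (s i) : K) * θ i z := by
      intro S
      induction S using Finset.induction_on with
      | empty => exact ⟨0, fun z => by simp⟩
      | insert a S ha ih =>
        obtain ⟨D, hD⟩ := ih
        refine ⟨(l (s a) : K) • θ a + D, fun z => ?_⟩
        rw [sum_insert ha, Derivation.add_apply, Derivation.smul_apply, hD, smul_eq_mul]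
    exact h1 univ
  have hDx : ∀ j, D (x j : K) = (l j : K) * x j := by
    intro j
    rw [hD, hrel, sum_mul]
    refine sum_congr rfl fun i _ => ?_
    have := (x j).ne_zero
    field_simp
  obtain ⟨g, hg, q, hq⟩ := hstab l (fun h0 => hlk (congrFun h0 k))
  exact hq (RingHom.mem_ker.2 (hom_of_der D x l hDx g (RingHom.mem_ker.1 hg) q))

end Pool.Agent.Y421.KZ
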