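import Pool.Agent.Y421.KZ.Ros

/-!
# Integral relations from logarithmic differentials

If `f k₀` is transcendental over a subfield `E`, there is an integral vector `l`, `l k₀ ≠ 0`, which is
orthogonal to all coefficient vectors `c` over `E` of relations `∑ c j (D (f j) / f j) = 0` (`D` over
`E`).
-/

set_option autoImplicit false

namespace Pool.Agent.Y421.KZ

open Finset

theorem core {K Ω : Type} [Field K] [CharZero K] [Field Ω] [IsAlgClosed Ω] [CharZero Ω]
    (σ : K →+* Ω) (E : Subfield K) {N : ℕ} (f : Fin N → K) (hf : ∀ j, f j ≠ 0) (k0 : Fin N)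
    (hk : Transcendental E (f k0)) :
    ∃ l : Fin N → ℤ, l k0 ≠ 0 ∧ ∀ c : Fin N → K, (∀ j, c j ∈ E) →
      (∀ D : Derivation ℚ Ω Ω, (∀ z ∈ E, D (σ z) = 0) →
        ∑ j, σ (c j) * (D (σ (f j)) / σ (f j)) = 0) →
      ∑ j, (l j : K) * c j = 0 := by
  classical
  let E' : IntermediateField ℚ Ω := (E.map σ).toIntermediateField
    (fun q => by
      rw [eq_ratCast]
      exact SubfieldClass.ratCast_mem (E.map σ) q)
  have hmemE : ∀ z ∈ E, σ z ∈ E' := fun z hz => ⟨z, hz, rfl⟩
  have htr : Transcendental E' (σ (f k0)) := by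
    intro halg
    apply hk
    let φ : E →+* E' :=
      { toFun := fun z => ⟨σ z, hmemE z z.2⟩
        map_one' := Subtype.ext (by simp)
        map_mul' := fun a b => Subtype.ext (by simp)
        map_zero' := Subtype.ext (by simp)
        map_add' := fun a b => Subtype.ext (by simp) }
    refine halg.of_ringHom_of_comp_eq φ σ ?_ σ.injective (RingHom.ext fun z => rfl)
    rintro ⟨w, z, hz, rfl⟩
    exact ⟨⟨z, hz⟩, rfl⟩
  obtain ⟨K₁, D₁, -, -, hD₁⟩ := Ros.exists_setup E' htr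
  obtain ⟨D, hDdef⟩ : ∃ D : Derivation ℚ Ω Ω, D = (D₁.restrictScalars E').restrictScalars ℚ :=
    ⟨_, rfl⟩
  have hDE : ∀ w ∈ E', D w = 0 := by
    intro w hw
    rw [hDdef]
    exact (D₁.restrictScalars E').map_algebraMap (⟨w, hw⟩ : E')
  have hDx : D (σ (f k0)) = 1 := by rw [hDdef]; exact hD₁
  have hxk : D (σ (f k0)) / σ (f k0) ≠ 0 := by
    rw [hDx]
    exact div_ne_zero one_ne_zero ((map_ne_zero σ).2 (hf k0))
  obtain ⟨lam, hlam⟩ : ∃ lam : Ω →ₗ[ℚ] ℚ, lam (D (σ (f k0)) / σ (f k0)) ≠ 0 := by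
    by_contra hcon
    push Not at hcon
    exact hxk ((Module.forall_dual_apply_eq_zero_iff ℚ _).1 hcon)
  obtain ⟨q, hq⟩ : ∃ q : Fin N → ℚ, ∀ i, lam (D (σ (f i)) / σ (f i)) = q i := ⟨_, fun i => rfl⟩
  rw [hq] at hlam
  obtain ⟨b, hb, l, hl⟩ : ∃ (b : ℤ) (_ : b ≠ 0) (l : Fin N → ℤ), ∀ i, (l i : ℚ) = b * q i := by
    obtain ⟨b, hb⟩ := IsLocalization.exist_integer_multiples_of_finite (nonZeroDivisors ℤ) q
    choose t ht using hb
    refine ⟨b, nonZeroDivisors.coe_ne_zero b, t, fun i => ?_⟩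
    have := ht i
    simpa [zsmul_eq_mul] using this
  refine ⟨l, ?_, fun c hc hD' => ?_⟩
  · intro h0
    have h1 := hl k0
    rw [h0, Int.cast_zero] at h1
    exact (mul_ne_zero (by exact_mod_cast hb) hlam) h1.symm
  · have hros := Ros.rational E' (fun j => σ (c j)) (fun j => σ (f j)) (fun j => hmemE _ (hc j))
      (fun j => (map_ne_zero σ).2 (hf j))
      (fun D hD => hD' D fun z hz => hD _ (hmemE z hz))
    have hmul : ∀ (q : ℚ) (v : Ω), (q : Ω) * v = q • v := fun q v => by rw [Rat.smul_def]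
    have hrel : ∑ i, ((q i : ℚ) : Ω) * σ (c i) = 0 := by
      refine (Module.forall_dual_apply_eq_zero_iff ℚ _).1 fun ψ => ?_
      have h1 := congrArg lam (hros ψ D hDE)
      rw [map_sum, map_zero] at h1
      rw [map_sum, ← h1]
      refine sum_congr rfl fun i _ => ?_
      rw [hmul, map_smul, smul_eq_mul, hmul, map_smul, smul_eq_mul, hq, mul_comm]
    have hrel2 : σ (∑ j, (l j : K) * c j) = 0 := by
      have h2 : ∀ i, (l i : Ω) = b * (q i : Ω) := fun i => by
        exact_mod_cast congrArg (fun z : ℚ => (z : Ω)) (hl i)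
      rw [map_sum]
      have h3 : ∑ j, σ ((l j : K) * c j) = b * ∑ i, ((q i : ℚ) : Ω) * σ (c i) := by
        rw [mul_sum]
        refine sum_congr rfl fun i _ => ?_
        rw [map_mul, map_intCast, h2, mul_assoc]
      rw [h3, hrel, mul_zero]
    exact (map_eq_zero σ).1 hrel2

end Pool.Agent.Y421.KZ
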